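import Pool.Agent.H5.FL.Stm4

set_option autoImplicit false

open MeasureTheory ProbabilityTheory Filter Topology
open scoped NNReal ENNReal

namespace H38.FL
open H5.FL

section

variable {E : Type} [NormedAddCommGroup E] [NormedSpace ℝ E]

theorem hasDerivAt_line (z d : E) (s : ℝ) : HasDerivAt (fun s : ℝ => z + s • d) d s := by
  have h := ((hasDerivAt_id s).smul_const d).const_add z
  simpa using h

theorem taylor_aux (f : E → ℝ) (hf : ContDiff ℝ 2 f) (z d : E) (ε : ℝ)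
    (h : ∀ s ∈ Set.Icc (0 : ℝ) 1,
      ‖fderiv ℝ (fderiv ℝ f) (z + s • d) - fderiv ℝ (fderiv ℝ f) z‖ ≤ ε) :
    |f (z + d) - f z - fderiv ℝ f z d - (1 / 2) * fderiv ℝ (fderiv ℝ f) z d d| ≤ ε * ‖d‖ ^ 2 := by
  have hf1 : Differentiable ℝ f := hf.differentiable (by norm_num)
  have hf2 : ContDiff ℝ 1 (fderiv ℝ f) := hf.fderiv_right (by norm_num)
  have hf3 : Differentiable ℝ (fderiv ℝ f) := hf2.differentiable (by norm_num)
  have hε0 := h 0 ⟨le_rfl, zero_le_one⟩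
  have hε : 0 ≤ ε := (norm_nonneg (fderiv ℝ (fderiv ℝ f) (z + (0 : ℝ) • d) - fderiv ℝ (fderiv ℝ f) z)).trans hε0
  -- derivatives along the segment
  have d1 : ∀ s : ℝ, HasDerivAt (fun s : ℝ => f (z + s • d)) (fderiv ℝ f (z + s • d) d) s := by
    intro s
    exact (hf1 (z + s • d)).hasFDerivAt.comp_hasDerivAt s (hasDerivAt_line z d s)
  have d2 : ∀ s : ℝ, HasDerivAt (fun s : ℝ => fderiv ℝ f (z + s • d) d)
      (fderiv ℝ (fderiv ℝ f) (z + s • d) d d) s := by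
    intro s
    have h1 : HasDerivAt (fun s : ℝ => fderiv ℝ f (z + s • d)) (fderiv ℝ (fderiv ℝ f) (z + s • d) d) s :=
      (hf3 (z + s • d)).hasFDerivAt.comp_hasDerivAt s (hasDerivAt_line z d s)
    have h2 := h1.clm_apply (hasDerivAt_const s d)
    simpa using h2
  have k1 : ∀ s : ℝ, HasDerivAt (fun s : ℝ => fderiv ℝ f (z + s • d) d - fderiv ℝ f z d -
      s * fderiv ℝ (fderiv ℝ f) z d d)
      (fderiv ℝ (fderiv ℝ f) (z + s • d) d d - fderiv ℝ (fderiv ℝ f) z d d) s := by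
    intro s
    have h1 := ((d2 s).sub_const (fderiv ℝ f z d)).sub ((hasDerivAt_id s).mul_const (fderiv ℝ (fderiv ℝ f) z d d))
    exact h1.congr_deriv (by simp)
  have k2 : ∀ s ∈ Set.Icc (0 : ℝ) 1, ‖fderiv ℝ (fderiv ℝ f) (z + s • d) d d - fderiv ℝ (fderiv ℝ f) z d d‖ ≤
      ε * ‖d‖ ^ 2 := by
    intro s hs
    have h1 : fderiv ℝ (fderiv ℝ f) (z + s • d) d d - fderiv ℝ (fderiv ℝ f) z d d =
        (fderiv ℝ (fderiv ℝ f) (z + s • d) - fderiv ℝ (fderiv ℝ f) z) d d := by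
      rfl
    rw [h1]
    refine le_trans (ContinuousLinearMap.le_opNorm _ _) ?_
    have h2 := ContinuousLinearMap.le_opNorm
      (fderiv ℝ (fderiv ℝ f) (z + s • d) - fderiv ℝ (fderiv ℝ f) z) d
    have h3 : ‖(fderiv ℝ (fderiv ℝ f) (z + s • d) - fderiv ℝ (fderiv ℝ f) z) d‖ ≤ ε * ‖d‖ :=
      le_trans h2 (mul_le_mul_of_nonneg_right (h s hs) (norm_nonneg d))
    have h4 := mul_le_mul_of_nonneg_right h3 (norm_nonneg d)
    calc _ ≤ ε * ‖d‖ * ‖d‖ := h4
      _ = ε * ‖d‖ ^ 2 := by ring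
  have k3 := norm_image_sub_le_of_norm_deriv_le_segment'
    (f := fun s : ℝ => fderiv ℝ f (z + s • d) d - fderiv ℝ f z d - s * fderiv ℝ (fderiv ℝ f) z d d)
    (f' := fun s : ℝ => fderiv ℝ (fderiv ℝ f) (z + s • d) d d - fderiv ℝ (fderiv ℝ f) z d d)
    (C := ε * ‖d‖ ^ 2) (a := 0) (b := 1)
    (fun s _ => (k1 s).hasDerivWithinAt) (fun s hs => k2 s ⟨hs.1, hs.2.le⟩)
  have k4 : ∀ s ∈ Set.Icc (0 : ℝ) 1, ‖fderiv ℝ f (z + s • d) d - fderiv ℝ f z d -
      s * fderiv ℝ (fderiv ℝ f) z d d‖ ≤ ε * ‖d‖ ^ 2 := by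
    intro s hs
    have h1 := k3 s hs
    simp only [zero_smul, add_zero, sub_self, zero_mul, sub_zero] at h1
    have h0 : 0 ≤ ε * ‖d‖ ^ 2 := by positivity
    have h2 : ε * ‖d‖ ^ 2 * s ≤ ε * ‖d‖ ^ 2 := by nlinarith [hs.1, hs.2]
    exact le_trans h1 h2
  have g1 : ∀ s : ℝ, HasDerivAt (fun s : ℝ => f (z + s • d) - s * fderiv ℝ f z d -
      (1 / 2) * s ^ 2 * fderiv ℝ (fderiv ℝ f) z d d)
      (fderiv ℝ f (z + s • d) d - fderiv ℝ f z d - s * fderiv ℝ (fderiv ℝ f) z d d) s := by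
    intro s
    have e1 := (d1 s).sub ((hasDerivAt_id s).mul_const (fderiv ℝ f z d))
    have e2 := (((hasDerivAt_id s).pow 2).const_mul (1 / 2 : ℝ)).mul_const (fderiv ℝ (fderiv ℝ f) z d d)
    have e3 := e1.sub e2
    refine e3.congr_deriv ?_
    simp
  have g2 := norm_image_sub_le_of_norm_deriv_le_segment_01'
    (f := fun s : ℝ => f (z + s • d) - s * fderiv ℝ f z d - (1 / 2) * s ^ 2 * fderiv ℝ (fderiv ℝ f) z d d)
    (f' := fun s : ℝ => fderiv ℝ f (z + s • d) d - fderiv ℝ f z d - s * fderiv ℝ (fderiv ℝ f) z d d)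
    (C := ε * ‖d‖ ^ 2)
    (fun s _ => (g1 s).hasDerivWithinAt) (fun s hs => k4 s ⟨hs.1, hs.2.le⟩)
  rw [Real.norm_eq_abs] at g2
  have e : f (z + (1 : ℝ) • d) - 1 * fderiv ℝ f z d - 1 / 2 * (1 : ℝ) ^ 2 * fderiv ℝ (fderiv ℝ f) z d d -
      (f (z + (0 : ℝ) • d) - 0 * fderiv ℝ f z d - 1 / 2 * (0 : ℝ) ^ 2 * fderiv ℝ (fderiv ℝ f) z d d) =
      f (z + d) - f z - fderiv ℝ f z d - (1 / 2) * fderiv ℝ (fderiv ℝ f) z d d := by
    rw [one_smul, zero_smul, add_zero]; ring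
  rw [e] at g2
  exact g2

end

theorem t_TAY : S_TAY := by
  intro N f hf R ε hε
  have hf2 : ContDiff ℝ 1 (fderiv ℝ f) := hf.fderiv_right (by norm_num)
  have hf3 : Continuous (fderiv ℝ (fderiv ℝ f)) := hf2.continuous_fderiv (by norm_num)
  have hcpt : IsCompact (Metric.closedBall (0 : (Fin N → ℝ) × (Fin N → ℝ)) (R + 1)) :=
    isCompact_closedBall _ _
  have huc : UniformContinuousOn (fderiv ℝ (fderiv ℝ f))
      (Metric.closedBall (0 : (Fin N → ℝ) × (Fin N → ℝ)) (R + 1)) :=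
    hcpt.uniformContinuousOn_of_continuous hf3.continuousOn
  have huc2 : ∀ ε > 0, ∃ δ > 0, ∀ x ∈ Metric.closedBall (0 : (Fin N → ℝ) × (Fin N → ℝ)) (R + 1),
      ∀ y ∈ Metric.closedBall (0 : (Fin N → ℝ) × (Fin N → ℝ)) (R + 1), dist x y < δ →
      dist (fderiv ℝ (fderiv ℝ f) x) (fderiv ℝ (fderiv ℝ f) y) < ε :=
    (Metric.uniformContinuousOn_iff (f := fderiv ℝ (fderiv ℝ f))).mp huc
  obtain ⟨δ, hδ, hall⟩ := huc2 ε hε
  refine ⟨min (δ / 2) 1, lt_min (by linarith) one_pos, min_le_right _ _, ?_⟩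
  intro z d hz hd
  apply taylor_aux f hf z d ε
  intro s hs
  have hd1 : ‖d‖ ≤ 1 := le_trans hd (min_le_right _ _)
  have hd2 : ‖d‖ ≤ δ / 2 := le_trans hd (min_le_left _ _)
  have hsd : ‖s • d‖ ≤ ‖d‖ := by
    rw [norm_smul, Real.norm_eq_abs, abs_of_nonneg hs.1]
    have := norm_nonneg d
    nlinarith [hs.2]
  have h1 := hall (z + s • d) (by
    rw [mem_closedBall_zero_iff]
    exact le_trans (norm_add_le _ _) (by linarith)) z (by
    rw [mem_closedBall_zero_iff]; linarith) (by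
    rw [dist_eq_norm, add_sub_cancel_left]; linarith)
  have h2 := dist_eq_norm (fderiv ℝ (fderiv ℝ f) (z + s • d)) (fderiv ℝ (fderiv ℝ f) z)
  exact (lt_of_eq_of_lt h2.symm h1).le

theorem hasDerivAt_upd1 {N : ℕ} (x τ : Fin N → ℝ) (j : Fin N) (s : ℝ) :
    HasDerivAt (fun s : ℝ => ((Function.update x j s, τ) : (Fin N → ℝ) × (Fin N → ℝ)))
      (Pi.single j 1, 0) s :=
  (hasDerivAt_update x j s).prodMk (hasDerivAt_const s τ)

theorem hasDerivAt_upd2 {N : ℕ} (x τ : Fin N → ℝ) (j : Fin N) (s : ℝ) :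
    HasDerivAt (fun s : ℝ => ((x, Function.update τ j s) : (Fin N → ℝ) × (Fin N → ℝ)))
      (0, Pi.single j 1) s :=
  (hasDerivAt_const s x).prodMk (hasDerivAt_update τ j s)

theorem t_PAR : S_PAR := by
  intro N f hf j
  have hf1 : Differentiable ℝ f := hf.differentiable (by norm_num)
  have hf2 : ContDiff ℝ 1 (fderiv ℝ f) := hf.fderiv_right (by norm_num)
  have hf3 : Differentiable ℝ (fderiv ℝ f) := hf2.differentiable (by norm_num)
  have c1 : Continuous (fderiv ℝ f) := hf2.continuous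
  have c2 : Continuous (fderiv ℝ (fderiv ℝ f)) := hf2.continuous_fderiv (by norm_num)
  refine ⟨?_, c1.clm_apply continuous_const, (c2.clm_apply continuous_const).clm_apply continuous_const,
    c1.clm_apply continuous_const⟩
  intro x τ
  have d1 : ∀ s : ℝ, HasDerivAt (fun s : ℝ => f (Function.update x j s, τ))
      (fderiv ℝ f (Function.update x j s, τ) (Pi.single j 1, 0)) s := fun s =>
    (hf1 (Function.update x j s, τ)).hasFDerivAt.comp_hasDerivAt s (hasDerivAt_upd1 x τ j s)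
  have d2 : ∀ s : ℝ, HasDerivAt (fun s : ℝ => f (x, Function.update τ j s))
      (fderiv ℝ f (x, Function.update τ j s) (0, Pi.single j 1)) s := fun s =>
    (hf1 (x, Function.update τ j s)).hasFDerivAt.comp_hasDerivAt s (hasDerivAt_upd2 x τ j s)
  have e1 : deriv (fun s : ℝ => f (Function.update x j s, τ)) =
      fun s => fderiv ℝ f (Function.update x j s, τ) (Pi.single j 1, 0) := by
    funext s
    exact (d1 s).deriv
  have d3 : ∀ s : ℝ, HasDerivAt (fun s : ℝ => fderiv ℝ f (Function.update x j s, τ) (Pi.single j 1, 0))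
      (fderiv ℝ (fderiv ℝ f) (Function.update x j s, τ) (Pi.single j 1, 0) (Pi.single j 1, 0)) s := by
    intro s
    have h1 : HasDerivAt (fun s : ℝ => fderiv ℝ f (Function.update x j s, τ))
        (fderiv ℝ (fderiv ℝ f) (Function.update x j s, τ) (Pi.single j 1, 0)) s :=
      (hf3 (Function.update x j s, τ)).hasFDerivAt.comp_hasDerivAt s (hasDerivAt_upd1 x τ j s)
    have h2 := h1.clm_apply (hasDerivAt_const s ((Pi.single j 1, 0) : (Fin N → ℝ) × (Fin N → ℝ)))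
    simpa using h2
  refine ⟨?_, ?_, ?_⟩
  · rw [(d1 (x j)).deriv, Function.update_eq_self]
  · rw [iteratedDeriv_succ, iteratedDeriv_one, e1, (d3 (x j)).deriv, Function.update_eq_self]
  · rw [(d2 (τ j)).deriv, Function.update_eq_self]

end H38.FL
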